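import Mathlib

/-!
# Grids with the free point property

A `Grid n` is a set `Λ` with `n` equivalence relations (the lines in `n` directions) such that two
lines of different directions meet in at most one point, and such that for any sets `C i ⊆ Λ`
(`i < n`) with `C i` countable on each line of direction `i`, some point of `Λ` lies in none of the
`C i`. Grids exist for every `n` (products of sets of rapidly increasing cardinalities, a version
of the Kuratowski and Sierpinski free set theorem).
-/

namespace Pool.Agent.Helper80.LInf

open Set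

/-- A set with `n` directions of lines having the free point property. -/
structure Grid (n : ℕ) where
  /-- the points -/
  Λ : Type
  /-- the relation of lying on a common line of direction `i` -/
  r : Fin n → Setoid Λ
  inter : ∀ i j, i ≠ j → ∀ x y, (r i) x y → (r j) x y → x = y
  free : ∀ C : Fin n → Set Λ, (∀ i x, ({y | (r i) x y} ∩ C i).Countable) → ∃ x, ∀ i, x ∉ C i

/-- The empty grid. -/
def gridZero : Grid 0 where
  Λ := Unit
  r := fun i => i.elim0
  inter := fun i => i.elim0
  free := fun _ _ => ⟨(), fun i => i.elim0⟩

/-- The relations of the grid with one more direction. -/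
def succRel {n : ℕ} (G : Grid n) (i : Fin (n + 1)) : Setoid (G.Λ × Set (G.Λ × ℕ)) :=
  Fin.lastCases (motive := fun _ => Setoid (G.Λ × Set (G.Λ × ℕ))) (Setoid.ker Prod.fst)
    (fun i => Setoid.comap Prod.fst (G.r i) ⊓ Setoid.ker Prod.snd) i

lemma succRel_last {n : ℕ} (G : Grid n) (x y) :
    (succRel G (Fin.last n)) x y ↔ x.1 = y.1 := by
  unfold succRel
  rw [Fin.lastCases_last]
  rfl

lemma succRel_castSucc {n : ℕ} (G : Grid n) (i : Fin n) (x y) :
    (succRel G i.castSucc) x y ↔ (G.r i) x.1 y.1 ∧ x.2 = y.2 := by
  unfold succRel
  rw [Fin.lastCases_castSucc]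
  rfl

/-- Adding one direction, whose coordinate set is larger than everything before. -/
def gridSucc {n : ℕ} (G : Grid n) : Grid (n + 1) where
  Λ := G.Λ × Set (G.Λ × ℕ)
  r := succRel G
  inter := by
    intro i j hij x y hi hj
    induction i using Fin.lastCases with
    | last =>
      induction j using Fin.lastCases with
      | last => exact absurd rfl hij
      | cast j =>
        rw [succRel_last] at hi
        rw [succRel_castSucc] at hj
        exact Prod.ext hi hj.2
    | cast i =>
      induction j using Fin.lastCases with
      | last =>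
        rw [succRel_castSucc] at hi
        rw [succRel_last] at hj
        exact Prod.ext hj hi.2
      | cast j =>
        rw [succRel_castSucc] at hi hj
        exact Prod.ext (G.inter i j (fun h => hij (by rw [h])) _ _ hi.1 hj.1) hi.2
  free := by
    intro C hC
    -- choose the last coordinate
    have h1 : ∃ γ : Set (G.Λ × ℕ), ∀ z, (z, γ) ∉ C (Fin.last n) := by
      by_contra hcon
      push Not at hcon
      have hD : ∀ z : G.Λ, ∃ e : ℕ → Set (G.Λ × ℕ), {γ | (z, γ) ∈ C (Fin.last n)} ⊆ range e := by
        intro z
        have hc : ({γ | (z, γ) ∈ C (Fin.last n)} : Set (Set (G.Λ × ℕ))).Countable := by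
          have := (hC (Fin.last n) (z, ∅)).image Prod.snd
          refine this.mono ?_
          intro γ hγ
          exact ⟨(z, γ), ⟨(succRel_last G _ _).2 rfl, hγ⟩, rfl⟩
        rcases ({γ | (z, γ) ∈ C (Fin.last n)} : Set (Set (G.Λ × ℕ))).eq_empty_or_nonempty with h | h
        · exact ⟨fun _ => ∅, by rw [h]; exact empty_subset _⟩
        · obtain ⟨e, he⟩ := hc.exists_eq_range h
          exact ⟨e, he.subset⟩
      choose e he using hD
      refine Function.cantor_surjective (fun p : G.Λ × ℕ => e p.1 p.2) ?_
      intro γ
      obtain ⟨z, hz⟩ := hcon γ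
      obtain ⟨k, hk⟩ := he z hz
      exact ⟨(z, k), hk⟩
    obtain ⟨γ, hγ⟩ := h1
    obtain ⟨z, hz⟩ := G.free (fun i => {w | (w, γ) ∈ C i.castSucc}) (by
      intro i z
      have := hC i.castSucc (z, γ)
      refine (this.image Prod.fst).mono ?_
      rintro w ⟨hw1, hw2⟩
      exact ⟨(w, γ), ⟨(succRel_castSucc G _ _ _).2 ⟨hw1, rfl⟩, hw2⟩, rfl⟩)
    refine ⟨(z, γ), ?_⟩
    intro i
    induction i using Fin.lastCases with
    | last => exact hγ z
    | cast i => exact hz i

/-- A grid with `n` directions. -/
def grid : (n : ℕ) → Grid n
  | 0 => gridZero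
  | n + 1 => gridSucc (grid n)

end Pool.Agent.Helper80.LInf
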