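import Mathlib

/-!
# Tools: sigma-algebras of decided sets, and `L^∞` of a counting measure
-/

namespace Pool.Agent.Helper80.LInf

open Set Filter MeasureTheory
open scoped ENNReal

variable {Ω Q : Type}

/-- The filter of all sets that contain `P` and contain every member of `B` up to a countable
set. -/
def cof (P : Set Ω) (B : Set (Set Ω)) : Filter Ω :=
  Filter.ofCountableInter {S | P ⊆ S ∧ ∀ b ∈ B, (b \ S).Countable}
    (by
      intro T hT hsub
      refine ⟨subset_sInter fun s hs => (hsub hs).1, fun b hb => ?_⟩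
      have : b \ ⋂₀ T = ⋃ s ∈ T, (b \ s) := by
        ext x
        simp only [mem_diff, mem_sInter, mem_iUnion, not_forall, exists_prop]
        constructor
        · rintro ⟨h1, s, h2, h3⟩
          exact ⟨s, h2, h1, h3⟩
        · rintro ⟨s, h2, h1, h3⟩
          exact ⟨h1, s, h2, h3⟩
      rw [this]
      exact hT.biUnion fun s hs => (hsub hs).2 b hb)
    (by
      rintro s t ⟨h1, h2⟩ hst
      exact ⟨h1.trans hst, fun b hb => (h2 b hb).mono (diff_subset_diff_right hst)⟩)

instance (P : Set Ω) (B : Set (Set Ω)) : CountableInterFilter (cof P B) := by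
  unfold cof
  infer_instance

lemma mem_cof {P : Set Ω} {B : Set (Set Ω)} {S : Set Ω} :
    S ∈ cof P B ↔ P ⊆ S ∧ ∀ b ∈ B, (b \ S).Countable := Iff.rfl

/-- The sigma-algebra of all sets that are decided by each filter `F q`. -/
def decided (F : Q → Filter Ω) [∀ q, CountableInterFilter (F q)] : MeasurableSpace Ω where
  MeasurableSet' A := ∀ q, A ∈ F q ∨ Aᶜ ∈ F q
  measurableSet_empty := fun q => Or.inr (by simp)
  measurableSet_compl := fun A hA q => by
    rw [compl_compl]
    exact (hA q).symm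
  measurableSet_iUnion := by
    intro A hA q
    by_cases h : ∃ n, A n ∈ F q
    · obtain ⟨n, hn⟩ := h
      exact Or.inl (mem_of_superset hn (subset_iUnion A n))
    · push Not at h
      right
      rw [compl_iUnion]
      exact countable_iInter_mem.2 fun n => (hA n q).resolve_left (h n)

lemma measurable_of_eventually (F : Q → Filter Ω) [∀ q, CountableInterFilter (F q)] {f : Ω → ℝ}
    (hf : ∀ q, ∃ c, ∀ᶠ x in F q, f x = c) : Measurable[decided F] f := by
  intro s _ q
  obtain ⟨c, hc⟩ := hf q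
  by_cases h : c ∈ s
  · left
    filter_upwards [hc] with x hx
    rw [mem_preimage, hx]
    exact h
  · right
    filter_upwards [hc] with x hx
    rw [mem_compl_iff, mem_preimage, hx]
    exact h

lemma eventually_of_measurable (F : Q → Filter Ω) [∀ q, CountableInterFilter (F q)] {f : Ω → ℝ}
    (hf : Measurable[decided F] f) (q : Q) : ∃ c, ∀ᶠ x in F q, f x = c := by
  obtain ⟨c, hc⟩ := exists_eventuallyEq_const_of_forall_separating (l := F q) (f := f)
    MeasurableSet (fun U hU => hf hU q)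
  exact ⟨c, hc⟩

/-! ### `L^∞` of the counting measure -/

section Linf

variable {Ω : Type} {m : MeasurableSpace Ω}

/-- The element of `L^∞` given by a bounded measurable function. -/
noncomputable def mkL (f : Ω → ℝ) (hf : Measurable f) (C : ℝ) (hb : ∀ x, |f x| ≤ C) :
    Lp ℝ ∞ (Measure.count : Measure Ω) :=
  MemLp.toLp f (memLp_top_of_bound hf.aestronglyMeasurable C (ae_of_all _ hb))

lemma mkL_apply (f : Ω → ℝ) (hf : Measurable f) (C : ℝ) (hb : ∀ x, |f x| ≤ C) (x : Ω) :
    (mkL f hf C hb : Lp ℝ ∞ (Measure.count : Measure Ω)) x = f x :=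
  Measure.ae_count_iff.1 (MemLp.coeFn_toLp _) x

lemma measurable_L (F : Lp ℝ ∞ (Measure.count : Measure Ω)) : Measurable (F : Ω → ℝ) :=
  (Lp.stronglyMeasurable F).measurable

lemma ext_L {F G : Lp ℝ ∞ (Measure.count : Measure Ω)} (h : ∀ x, F x = G x) : F = G :=
  Lp.ext (ae_of_all _ h)

lemma add_L (F G : Lp ℝ ∞ (Measure.count : Measure Ω)) (x : Ω) : (F + G) x = F x + G x :=
  Measure.ae_count_iff.1 (Lp.coeFn_add F G) x

lemma sub_L (F G : Lp ℝ ∞ (Measure.count : Measure Ω)) (x : Ω) : (F - G) x = F x - G x :=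
  Measure.ae_count_iff.1 (Lp.coeFn_sub F G) x

lemma smul_L (c : ℝ) (F : Lp ℝ ∞ (Measure.count : Measure Ω)) (x : Ω) : (c • F) x = c * F x :=
  Measure.ae_count_iff.1 (Lp.coeFn_smul c F) x

lemma abs_le_norm_L (F : Lp ℝ ∞ (Measure.count : Measure Ω)) (x : Ω) : |F x| ≤ ‖F‖ := by
  have h := Measure.ae_count_iff.1 (ae_le_eLpNormEssSup (f := F) (μ := Measure.count)) x
  rw [Lp.norm_def, eLpNorm_exponent_top]
  have h2 : eLpNormEssSup F (Measure.count : Measure Ω) ≠ ∞ := by
    rw [← eLpNorm_exponent_top]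
    exact Lp.eLpNorm_ne_top F
  have h3 := ENNReal.toReal_mono h2 h
  simpa using h3

lemma norm_L_le {F : Lp ℝ ∞ (Measure.count : Measure Ω)} {C : ℝ} (hC : 0 ≤ C)
    (h : ∀ x, |F x| ≤ C) : ‖F‖ ≤ C := by
  rw [Lp.norm_def, eLpNorm_exponent_top]
  have := eLpNormEssSup_le_of_ae_bound (μ := (Measure.count : Measure Ω)) (f := F) (C := C)
    (ae_of_all _ h)
  calc _ ≤ (ENNReal.ofReal C).toReal := ENNReal.toReal_mono ENNReal.ofReal_ne_top this
    _ = C := ENNReal.toReal_ofReal hC

lemma nonneg_L_iff (F : Lp ℝ ∞ (Measure.count : Measure Ω)) : 0 ≤ F ↔ ∀ x, 0 ≤ F x := by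
  rw [← Lp.coeFn_nonneg]
  exact Measure.ae_count_iff

end Linf

end Pool.Agent.Helper80.LInf
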