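import Mathlib
import Pool.Agent.Helper80.FreeGrid
import Pool.Agent.Helper80.LinfTools

/-!
# Almost isometric positive operators between `L^∞` spaces far from every isometric operator
-/

namespace Pool.Agent.Helper80.LInf

open Set Filter MeasureTheory
open scoped ENNReal

/-- The underlying set of the first measure space: for each `n` a point `infty n` and copies
`pt n x j` (`j < n`) of each point `x` of the grid with `n` directions. -/
inductive Om1 : Type
  | infty (n : ℕ) : Om1
  | pt (n : ℕ) (x : (grid n).Λ) (j : Fin n) : Om1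

/-- The underlying set of the second measure space: two copies of `Om1` and the points of all
grids. -/
inductive Om2 : Type
  | free (ω : Om1) : Om2
  | cpl (ω : Om1) : Om2
  | lam (n : ℕ) (x : (grid n).Λ) : Om2

/-- All copies with index `j ≠ i` of the points of the line of direction `i` through `x₀`. -/
def gset (n : ℕ) (i : Fin n) (x₀ : (grid n).Λ) : Set Om1 :=
  {ω | ∃ x j, ((grid n).r i) x₀ x ∧ j ≠ i ∧ ω = Om1.pt n x j}

/-- All copies with index `i` of the points of the line of direction `i` through `x₀`. -/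
def dset (n : ℕ) (i : Fin n) (x₀ : (grid n).Λ) : Set Om1 :=
  {ω | ∃ x, ((grid n).r i) x₀ x ∧ ω = Om1.pt n x i}

/-- The line of direction `i` through `x₀` in the second measure space. -/
def lset (n : ℕ) (i : Fin n) (x₀ : (grid n).Λ) : Set Om2 :=
  {ω | ∃ x, ((grid n).r i) x₀ x ∧ ω = Om2.lam n x}

/-- The filters defining the first sigma-algebra. -/
def F1 : (Σ n : ℕ, Option (Fin n × (grid n).Λ)) → Filter Om1
  | ⟨n, none⟩ => cof {Om1.infty n} (range fun p : Fin n × (grid n).Λ => dset n p.1 p.2)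
  | ⟨n, some (i, x₀)⟩ => cof ∅ {gset n i x₀}

/-- The filters defining the second sigma-algebra. -/
def F2 : (Σ n : ℕ, Fin n × (grid n).Λ) → Filter Om2
  | ⟨n, (i, x₀)⟩ => cof ∅ {Om2.cpl '' gset n i x₀, lset n i x₀}

instance instF1 (q : Σ n : ℕ, Option (Fin n × (grid n).Λ)) : CountableInterFilter (F1 q) := by
  rcases q with ⟨n, _ | ⟨i, x₀⟩⟩
  · show CountableInterFilter (cof _ _)
    infer_instance
  · show CountableInterFilter (cof _ _)
    infer_instance

instance instF2 (q : Σ n : ℕ, Fin n × (grid n).Λ) : CountableInterFilter (F2 q) := by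
  rcases q with ⟨n, ⟨i, x₀⟩⟩
  show CountableInterFilter (cof _ _)
  infer_instance

@[reducible] noncomputable instance mOm1 : MeasurableSpace Om1 := decided F1
@[reducible] noncomputable instance mOm2 : MeasurableSpace Om2 := decided F2

/-- The first `L^∞` space. -/
abbrev E1 : Type := Lp ℝ ∞ (Measure.count : Measure Om1)
/-- The second `L^∞` space. -/
abbrev E2 : Type := Lp ℝ ∞ (Measure.count : Measure Om2)

/-- The operator `T n` on the level of functions. -/
noncomputable def tfun (n : ℕ) (f : Om1 → ℝ) : Om2 → ℝ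
  | .free (.infty m) => if m = n then 0 else f (.infty m)
  | .free (.pt m x j) => if m = n then 0 else f (.pt m x j)
  | .cpl (.infty m) => if m = n then f (.infty m) else 0
  | .cpl (.pt m x j) =>
      if m = n then (1 - 1 / (m : ℝ)) * f (.pt m x j) + (1 / (m : ℝ)) * f (.infty m) else 0
  | .lam m x => if m = n then (1 / (m : ℝ)) * ∑ j, f (.pt m x j) else 0

lemma tfun_add (n : ℕ) (f g : Om1 → ℝ) (ω : Om2) :
    tfun n (fun x => f x + g x) ω = tfun n f ω + tfun n g ω := by
  rcases ω with (m | ⟨m, x, j⟩) | (m | ⟨m, x, j⟩) | ⟨m, x⟩ <;> simp only [tfun] <;> split_ifs <;>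
    (try simp only [Finset.sum_add_distrib]) <;> ring

lemma tfun_smul (n : ℕ) (c : ℝ) (f : Om1 → ℝ) (ω : Om2) :
    tfun n (fun x => c * f x) ω = c * tfun n f ω := by
  rcases ω with (m | ⟨m, x, j⟩) | (m | ⟨m, x, j⟩) | ⟨m, x⟩ <;> simp only [tfun] <;> split_ifs <;>
    (try simp only [← Finset.mul_sum]) <;> ring

lemma abs_tfun_le (n : ℕ) {f : Om1 → ℝ} {C : ℝ} (hC : 0 ≤ C) (hf : ∀ x, |f x| ≤ C) (ω : Om2) :
    |tfun n f ω| ≤ C := by
  rcases ω with (m | ⟨m, x, j⟩) | (m | ⟨m, x, j⟩) | ⟨m, x⟩ <;> simp only [tfun] <;> split_ifs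
  · simpa using hC
  · exact hf _
  · simpa using hC
  · exact hf _
  · exact hf _
  · simpa using hC
  · have hm : (1 : ℝ) ≤ m := by
      have := j.pos
      exact_mod_cast this
    have h0 : 0 ≤ 1 / (m : ℝ) := by positivity
    have h1 : 1 / (m : ℝ) ≤ 1 := by
      rw [div_le_one (by linarith)]; exact hm
    calc |(1 - 1 / (m : ℝ)) * f (.pt m x j) + (1 / (m : ℝ)) * f (.infty m)|
        ≤ |(1 - 1 / (m : ℝ)) * f (.pt m x j)| + |(1 / (m : ℝ)) * f (.infty m)| := abs_add_le _ _
      _ = (1 - 1 / (m : ℝ)) * |f (.pt m x j)| + (1 / (m : ℝ)) * |f (.infty m)| := by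
          rw [abs_mul, abs_mul, abs_of_nonneg h0, abs_of_nonneg (sub_nonneg.2 h1)]
      _ ≤ (1 - 1 / (m : ℝ)) * C + (1 / (m : ℝ)) * C :=
          add_le_add (mul_le_mul_of_nonneg_left (hf _) (sub_nonneg.2 h1))
            (mul_le_mul_of_nonneg_left (hf _) h0)
      _ = C := by ring
  · simpa using hC
  · rcases Nat.eq_zero_or_pos m with h | h
    · subst h
      simpa using hC
    · have hm : (0 : ℝ) < m := by exact_mod_cast h
      rw [abs_mul, abs_of_nonneg (by positivity)]
      calc (1 / (m : ℝ)) * |∑ j, f (.pt m x j)| ≤ (1 / (m : ℝ)) * ∑ j : Fin m, C := by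
            gcongr
            exact (Finset.abs_sum_le_sum_abs _ _).trans (Finset.sum_le_sum fun j _ => hf _)
        _ = C := by
            simp only [Finset.sum_const, Finset.card_univ, Fintype.card_fin, nsmul_eq_mul]
            field_simp
  · simpa using hC

lemma tfun_nonneg (n : ℕ) {f : Om1 → ℝ} (hf : ∀ x, 0 ≤ f x) (ω : Om2) : 0 ≤ tfun n f ω := by
  rcases ω with (m | ⟨m, x, j⟩) | (m | ⟨m, x, j⟩) | ⟨m, x⟩ <;> simp only [tfun] <;> split_ifs
  · exact le_rfl
  · exact hf _
  · exact le_rfl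
  · exact hf _
  · exact hf _
  · exact le_rfl
  · have hm : (1 : ℝ) ≤ m := by
      have := j.pos
      exact_mod_cast this
    have h0 : 0 ≤ 1 / (m : ℝ) := by positivity
    have h1 : 1 / (m : ℝ) ≤ 1 := by
      rw [div_le_one (by linarith)]; exact hm
    have := mul_nonneg (sub_nonneg.2 h1) (hf (.pt m x j))
    have := mul_nonneg h0 (hf (.infty m))
    linarith
  · exact le_rfl
  · exact mul_nonneg (by positivity) (Finset.sum_nonneg fun j _ => hf _)
  · exact le_rfl

lemma measurable_tfun (n : ℕ) {f : Om1 → ℝ} (hf : Measurable f) : Measurable (tfun n f) := by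
  refine measurable_of_eventually F2 ?_
  rintro ⟨m, ⟨i, x₀⟩⟩
  by_cases hmn : m = n
  · subst hmn
    obtain ⟨c, hc⟩ := eventually_of_measurable F1 hf ⟨m, some (i, x₀)⟩
    obtain ⟨c', hc'⟩ := eventually_of_measurable F1 hf ⟨m, none⟩
    have hc1 : (gset m i x₀ \ {ω | f ω = c}).Countable := (mem_cof.1 hc).2 _ rfl
    have hc2 : f (.infty m) = c' := (mem_cof.1 hc').1 rfl
    have hc3 : (dset m i x₀ \ {ω | f ω = c'}).Countable := (mem_cof.1 hc').2 _ ⟨(i, x₀), rfl⟩
    refine ⟨(1 - 1 / (m : ℝ)) * c + (1 / (m : ℝ)) * c', mem_cof.2 ⟨empty_subset _, ?_⟩⟩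
    rintro b (rfl | rfl)
    · refine (hc1.image Om2.cpl).mono ?_
      rintro _ ⟨⟨ω, hω, rfl⟩, hne⟩
      refine ⟨ω, ⟨hω, fun h => hne ?_⟩, rfl⟩
      obtain ⟨x, j, h1, h2, rfl⟩ := hω
      show tfun m f (.cpl (.pt m x j)) = _
      simp only [tfun, if_true]
      rw [show f (.pt m x j) = c from h, hc2]
    · have hB1 : ∀ j, j ≠ i → {x | ((grid m).r i) x₀ x ∧ f (.pt m x j) ≠ c}.Countable := by
        intro j hj
        have := hc1.preimage (f := fun x => Om1.pt m x j) (fun a b h => by simpa using h)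
        refine this.mono ?_
        rintro x ⟨h1, h2⟩
        exact ⟨⟨x, j, h1, hj, rfl⟩, h2⟩
      have hB2 : {x | ((grid m).r i) x₀ x ∧ f (.pt m x i) ≠ c'}.Countable := by
        have := hc3.preimage (f := fun x => Om1.pt m x i) (fun a b h => by simpa using h)
        refine this.mono ?_
        rintro x ⟨h1, h2⟩
        exact ⟨⟨x, h1, rfl⟩, h2⟩
      have hB : ((⋃ j : Fin m, ⋃ (_ : j ≠ i), {x | ((grid m).r i) x₀ x ∧ f (.pt m x j) ≠ c}) ∪
          {x | ((grid m).r i) x₀ x ∧ f (.pt m x i) ≠ c'}).Countable :=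
        (countable_iUnion fun j => countable_iUnion fun hj => hB1 j hj).union hB2
      refine (hB.image (Om2.lam m)).mono ?_
      rintro _ ⟨⟨x, hx, rfl⟩, hne⟩
      refine ⟨x, ?_, rfl⟩
      by_contra hcon
      simp only [mem_union, mem_iUnion, not_or, not_exists] at hcon
      refine hne ?_
      show tfun m f (.lam m x) = _
      have h1 : ∀ j, j ≠ i → f (.pt m x j) = c := by
        intro j hj
        by_contra h
        exact hcon.1 j hj ⟨hx, h⟩
      have h2 : f (.pt m x i) = c' := by
        by_contra h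
        exact hcon.2 ⟨hx, h⟩
      simp only [tfun, if_true]
      rw [← Finset.add_sum_erase _ _ (Finset.mem_univ i), h2,
        Finset.sum_congr rfl (fun j hj => h1 j (Finset.ne_of_mem_erase hj))]
      simp only [Finset.sum_const, Finset.card_erase_of_mem (Finset.mem_univ i),
        Finset.card_univ, Fintype.card_fin, nsmul_eq_mul]
      have hm : 1 ≤ m := i.pos
      have hm' : (m : ℝ) ≠ 0 := by positivity
      rw [Nat.cast_sub hm]
      field_simp
      push_cast
      ring
  · refine ⟨0, mem_cof.2 ⟨empty_subset _, ?_⟩⟩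
    rintro b (rfl | rfl)
    · convert countable_empty
      rw [sdiff_eq_empty]
      rintro _ ⟨ω, ⟨x, j, h1, h2, rfl⟩, rfl⟩
      show tfun n f (.cpl (.pt m x j)) = 0
      simp only [tfun, if_neg hmn]
    · convert countable_empty
      rw [sdiff_eq_empty]
      rintro _ ⟨x, h1, rfl⟩
      show tfun n f (.lam m x) = 0
      simp only [tfun, if_neg hmn]

/-- The element `T n F`. -/
noncomputable def Tval (n : ℕ) (F : E1) : E2 :=
  mkL (tfun n F) (measurable_tfun n (measurable_L F)) ‖F‖
    (abs_tfun_le n (norm_nonneg _) (abs_le_norm_L F))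

lemma Tval_apply (n : ℕ) (F : E1) (ω : Om2) : (Tval n F) ω = tfun n F ω := by
  unfold Tval
  rw [mkL_apply]

/-- The operators `T n`. -/
noncomputable def T (n : ℕ) : E1 →L[ℝ] E2 :=
  LinearMap.mkContinuous
    { toFun := Tval n
      map_add' := by
        intro F G
        refine ext_L fun ω => ?_
        rw [add_L, Tval_apply, Tval_apply, Tval_apply, ← tfun_add]
        congr 1
        funext x
        exact add_L F G x
      map_smul' := by
        intro c F
        refine ext_L fun ω => ?_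
        rw [RingHom.id_apply, smul_L, Tval_apply, Tval_apply, ← tfun_smul]
        congr 1
        funext x
        exact smul_L c F x } 1
    (by
      intro F
      rw [one_mul]
      refine norm_L_le (norm_nonneg _) fun ω => ?_
      show |(Tval n F) ω| ≤ _
      rw [Tval_apply]
      exact abs_tfun_le n (norm_nonneg _) (abs_le_norm_L F) ω)

lemma T_apply (n : ℕ) (F : E1) (ω : Om2) : (T n F) ω = tfun n F ω :=
  Tval_apply n F ω

lemma T_nonneg (n : ℕ) (F : E1) (hF : 0 ≤ F) : 0 ≤ T n F := by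
  rw [nonneg_L_iff] at hF ⊢
  intro ω
  rw [T_apply]
  exact tfun_nonneg n hF ω

lemma norm_T_le (n : ℕ) (F : E1) : ‖T n F‖ ≤ ‖F‖ := by
  refine norm_L_le (norm_nonneg _) fun ω => ?_
  rw [T_apply]
  exact abs_tfun_le n (norm_nonneg _) (abs_le_norm_L F) ω

lemma le_norm_T (n : ℕ) (hn : 1 ≤ n) (F : E1) : (1 - 2 / (n : ℝ)) * ‖F‖ ≤ ‖T n F‖ := by
  have hn' : (1 : ℝ) ≤ n := by exact_mod_cast hn
  have h0 : 0 ≤ 1 / (n : ℝ) := by positivity
  have h1 : 1 / (n : ℝ) ≤ 1 := by
    rw [div_le_one (by linarith)]; exact hn'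
  -- pointwise estimate
  have key : ∀ ω, (1 - 1 / (n : ℝ)) * |F ω| ≤ ‖T n F‖ + (1 / (n : ℝ)) * ‖F‖ := by
    intro ω
    have hpos : 0 ≤ (1 / (n : ℝ)) * ‖F‖ := mul_nonneg h0 (norm_nonneg _)
    have hle : (1 - 1 / (n : ℝ)) * |F ω| ≤ |F ω| := by
      have := mul_nonneg h0 (abs_nonneg (F ω))
      linarith
    rcases ω with m | ⟨m, x, j⟩
    · by_cases hmn : m = n
      · have h := abs_le_norm_L (T n F) (.cpl (.infty m))
        rw [T_apply] at h
        simp only [tfun, if_pos hmn] at h
        linarith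
      · have h := abs_le_norm_L (T n F) (.free (.infty m))
        rw [T_apply] at h
        simp only [tfun, if_neg hmn] at h
        linarith
    · by_cases hmn : m = n
      · have h := abs_le_norm_L (T n F) (.cpl (.pt m x j))
        rw [T_apply] at h
        simp only [tfun, if_pos hmn] at h
        subst hmn
        have h2 := abs_le_norm_L F (.infty m)
        have h3 : (1 - 1 / (m : ℝ)) * |F (.pt m x j)| =
            |((1 - 1 / (m : ℝ)) * F (.pt m x j) + (1 / (m : ℝ)) * F (.infty m)) -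
              (1 / (m : ℝ)) * F (.infty m)| := by
          rw [add_sub_cancel_right, abs_mul, abs_of_nonneg (sub_nonneg.2 h1)]
        rw [h3]
        refine (abs_sub _ _).trans ?_
        rw [abs_mul (1 / (m : ℝ)), abs_of_nonneg h0]
        gcongr
      · have h := abs_le_norm_L (T n F) (.free (.pt m x j))
        rw [T_apply] at h
        simp only [tfun, if_neg hmn] at h
        linarith
  have key2 : (1 - 1 / (n : ℝ)) * ‖F‖ ≤ ‖T n F‖ + (1 / (n : ℝ)) * ‖F‖ := by
    rcases eq_or_lt_of_le (sub_nonneg.2 h1) with h | h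
    · rw [← h, zero_mul]
      positivity
    · have : ‖F‖ ≤ (‖T n F‖ + (1 / (n : ℝ)) * ‖F‖) / (1 - 1 / (n : ℝ)) := by
        refine norm_L_le (by positivity) fun ω => ?_
        rw [le_div_iff₀ h, mul_comm]
        exact key ω
      rw [le_div_iff₀ h] at this
      linarith
  have : (2 : ℝ) / n = 1 / n + 1 / n := by ring
  rw [this]
  linarith

end Pool.Agent.Helper80.LInf
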