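import Mathlib
import Pool.Agent.Helper80.LinfExample

/-!
# No isometric operator is close to the operators `T n`
-/

namespace Pool.Agent.Helper80.LInf

open Set Filter MeasureTheory
open scoped ENNReal

/-- The indicator function of the point `pt n x j`. -/
noncomputable def efun (n : ℕ) (x : (grid n).Λ) (j : Fin n) : Om1 → ℝ :=
  indicator {Om1.pt n x j} (fun _ => 1)

lemma measurable_efun (n : ℕ) (x : (grid n).Λ) (j : Fin n) : Measurable (efun n x j) := by
  refine measurable_of_eventually F1 ?_
  have key : ∀ b : Set Om1, (b \ {ω | efun n x j ω = 0}).Countable := by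
    intro b
    refine (countable_singleton (Om1.pt n x j)).mono ?_
    rintro ω ⟨_, hω⟩
    by_contra h
    exact hω (indicator_of_notMem h _)
  rintro ⟨m, _ | ⟨i, x₀⟩⟩
  · refine ⟨0, mem_cof.2 ⟨?_, fun b _ => key b⟩⟩
    rintro _ rfl
    exact indicator_of_notMem (by simp) _
  · exact ⟨0, mem_cof.2 ⟨empty_subset _, fun b _ => key b⟩⟩

lemma abs_efun_le (n : ℕ) (x : (grid n).Λ) (j : Fin n) (ω : Om1) : |efun n x j ω| ≤ 1 := by
  unfold efun
  by_cases h : ω ∈ ({Om1.pt n x j} : Set Om1)
  · rw [indicator_of_mem h]; simp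
  · rw [indicator_of_notMem h]; simp

/-- The indicator function of a point as an element of `L^∞`. -/
noncomputable def e (n : ℕ) (x : (grid n).Λ) (j : Fin n) : E1 :=
  mkL (efun n x j) (measurable_efun n x j) 1 (abs_efun_le n x j)

lemma e_self (n : ℕ) (x : (grid n).Λ) (j : Fin n) : (e n x j) (.pt n x j) = 1 := by
  unfold e
  rw [mkL_apply]
  exact indicator_of_mem (mem_singleton _) _

lemma e_of_ne {n : ℕ} {x : (grid n).Λ} {j : Fin n} {ω : Om1} (h : ω ≠ .pt n x j) :
    (e n x j) ω = 0 := by
  unfold e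
  rw [mkL_apply]
  exact indicator_of_notMem (show ω ∉ ({Om1.pt n x j} : Set Om1) from h) _

lemma norm_e (n : ℕ) (x : (grid n).Λ) (j : Fin n) : ‖e n x j‖ = 1 := by
  refine le_antisymm (norm_L_le zero_le_one fun ω => ?_) ?_
  · unfold e
    rw [mkL_apply]
    exact abs_efun_le n x j ω
  · have := abs_le_norm_L (e n x j) (.pt n x j)
    rwa [e_self, abs_one] at this

/-- The indicator function of the set `gset n i x₀`. -/
noncomputable def gfun (n : ℕ) (i : Fin n) (x₀ : (grid n).Λ) : Om1 → ℝ :=
  indicator (gset n i x₀) (fun _ => 1)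

lemma measurable_gfun (n : ℕ) (i : Fin n) (x₀ : (grid n).Λ) : Measurable (gfun n i x₀) := by
  refine measurable_of_eventually F1 ?_
  rintro ⟨m, _ | ⟨i', x₁⟩⟩
  · refine ⟨0, mem_cof.2 ⟨?_, ?_⟩⟩
    · rintro _ rfl
      refine indicator_of_notMem ?_ _
      rintro ⟨x, j, -, -, h⟩
      exact absurd h (by simp)
    · rintro _ ⟨⟨i', x₁⟩, rfl⟩
      -- the set of exceptional points has at most one element
      refine Set.Subsingleton.countable ?_
      rintro ω ⟨⟨y, hy, rfl⟩, hω⟩ ω' ⟨⟨y', hy', rfl⟩, hω'⟩
      have h1 : Om1.pt m y i' ∈ gset n i x₀ := by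
        by_contra h
        exact hω (indicator_of_notMem h _)
      have h2 : Om1.pt m y' i' ∈ gset n i x₀ := by
        by_contra h
        exact hω' (indicator_of_notMem h _)
      obtain ⟨z, j, hz, hj, hz'⟩ := h1
      obtain ⟨z', j', hzz, hjj, hzz'⟩ := h2
      injection hz' with e1 e2 e3
      subst e1
      injection hzz' with e4 e5 e6
      have e2 := eq_of_heq e2
      have e3 := eq_of_heq e3
      subst e2 e3 e5
      have : y = y' := (grid m).inter i' i hj y y'
        (((grid m).r i').trans (((grid m).r i').symm hy) hy')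
        (((grid m).r i).trans (((grid m).r i).symm hz) hzz)
      rw [this]
  · by_cases hmn : m = n
    · subst hmn
      by_cases hi : i' = i
      · subst hi
        by_cases hx : ((grid m).r i') x₀ x₁
        · refine ⟨1, mem_cof.2 ⟨empty_subset _, ?_⟩⟩
          rintro _ rfl
          convert countable_empty
          rw [sdiff_eq_empty]
          rintro _ ⟨x, j, hx', hj, rfl⟩
          have hmem : Om1.pt m x j ∈ gset m i' x₀ := ⟨x, j, ((grid m).r i').trans hx hx', hj, rfl⟩
          exact indicator_of_mem hmem _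
        · refine ⟨0, mem_cof.2 ⟨empty_subset _, ?_⟩⟩
          rintro _ rfl
          convert countable_empty
          rw [sdiff_eq_empty]
          rintro _ ⟨x, j, hx', hj, rfl⟩
          refine indicator_of_notMem ?_ _
          rintro ⟨y, j', hy, -, h⟩
          injection h with _ e2 e3
          subst e2
          exact hx (((grid m).r i').trans hy (((grid m).r i').symm hx'))
      · refine ⟨0, mem_cof.2 ⟨empty_subset _, ?_⟩⟩
        rintro _ rfl
        -- at most `m` exceptional points
        have : ∀ ω ∈ gset m i' x₁ \ {ω | gfun m i x₀ ω = 0}, ∀ y j, ω = Om1.pt m y j →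
            ((grid m).r i') x₁ y ∧ ((grid m).r i) x₀ y := by
          rintro ω ⟨⟨x, k, h1, h2, rfl⟩, h3⟩ y j hω
          injection hω with _ e2 e3
          subst e2
          refine ⟨h1, ?_⟩
          have h4 : Om1.pt m x k ∈ gset m i x₀ := by
            by_contra h
            exact h3 (indicator_of_notMem h _)
          obtain ⟨z, j', hz, -, h⟩ := h4
          injection h with _ e2 e3
          subst e2
          exact hz
        by_cases hne : ∃ y : (grid m).Λ, ((grid m).r i') x₁ y ∧ ((grid m).r i) x₀ y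
        · obtain ⟨y, hy1, hy2⟩ := hne
          refine (countable_range (fun j : Fin m => Om1.pt m y j)).mono ?_
          rintro ω hω
          obtain ⟨⟨x, k, h1, h2, rfl⟩, h3⟩ := id hω
          obtain ⟨h4, h5⟩ := this _ hω x k rfl
          have : x = y := (grid m).inter i' i hi x y
            (((grid m).r i').trans (((grid m).r i').symm h4) hy1)
            (((grid m).r i).trans (((grid m).r i).symm h5) hy2)
          exact ⟨k, by rw [this]⟩
        · convert countable_empty
          rw [eq_empty_iff_forall_notMem]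
          intro ω hω
          obtain ⟨⟨x, k, h1, h2, rfl⟩, h3⟩ := id hω
          exact hne ⟨x, this _ hω x k rfl⟩
    · refine ⟨0, mem_cof.2 ⟨empty_subset _, ?_⟩⟩
      rintro _ rfl
      convert countable_empty
      rw [sdiff_eq_empty]
      rintro _ ⟨x, j, hx', hj, rfl⟩
      refine indicator_of_notMem ?_ _
      rintro ⟨y, j', hy, -, h⟩
      injection h with e1 _ _
      exact hmn e1

lemma abs_gfun_le (n : ℕ) (i : Fin n) (x₀ : (grid n).Λ) (ω : Om1) : |gfun n i x₀ ω| ≤ 1 := by
  unfold gfun
  by_cases h : ω ∈ gset n i x₀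
  · rw [indicator_of_mem h]; simp
  · rw [indicator_of_notMem h]; simp

/-- The indicator function of `gset n i x₀` as an element of `L^∞`. -/
noncomputable def g (n : ℕ) (i : Fin n) (x₀ : (grid n).Λ) : E1 :=
  mkL (gfun n i x₀) (measurable_gfun n i x₀) 1 (abs_gfun_le n i x₀)

lemma g_apply (n : ℕ) (i : Fin n) (x₀ : (grid n).Λ) (ω : Om1) :
    (g n i x₀) ω = gfun n i x₀ ω := mkL_apply _ _ _ _ _

/-- The key statement: an isometric operator which is close to `T n` is the identity on the
coupled copy of the points `pt n x j`. -/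
lemma V_e (n : ℕ) (hn : 3 ≤ n) (V : E1 →L[ℝ] E2) (hV : ∀ F, ‖V F‖ = ‖F‖)
    (hd : ‖T n - V‖ < 1 / 2) (x : (grid n).Λ) (j : Fin n) :
    (V (e n x j)) (.cpl (.pt n x j)) = 1 := by
  have hn' : (3 : ℝ) ≤ n := by exact_mod_cast hn
  have h13 : 1 / (n : ℝ) ≤ 1 / 3 := by
    gcongr
  have h0 : 0 ≤ 1 / (n : ℝ) := by positivity
  have hdiff : ∀ ω, |(T n (e n x j)) ω - (V (e n x j)) ω| ≤ ‖T n - V‖ := by
    intro ω
    rw [← sub_L, ← sub_apply]
    refine (abs_le_norm_L _ _).trans ?_
    have := (T n - V).le_opNorm (e n x j)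
    rwa [norm_e, mul_one] at this
  have hT1 : (T n (e n x j)) (.cpl (.pt n x j)) = 1 - 1 / (n : ℝ) := by
    rw [T_apply]
    simp only [tfun, if_true]
    rw [e_self, e_of_ne (by simp)]
    ring
  have hT2 : ∀ ω, ω ≠ Om2.cpl (.pt n x j) → |(T n (e n x j)) ω| ≤ 1 / (n : ℝ) := by
    intro ω hω
    rw [T_apply]
    rcases ω with (m | ⟨m, y, k⟩) | (m | ⟨m, y, k⟩) | ⟨m, y⟩ <;> simp only [tfun]
    · rw [e_of_ne (by simp)]
      simp
    · split_ifs with hmn
      · simp
      · rw [e_of_ne (by intro h; injection h with e1 _ _; exact hmn e1)]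
        simp
    · rw [e_of_ne (by simp)]
      simp
    · rw [e_of_ne (by intro h; exact hω (by rw [h])), e_of_ne (by simp)]
      simp
    · split_ifs with hmn
      · subst hmn
        rw [abs_mul, abs_of_nonneg h0]
        have : |∑ k : Fin m, (e m x j) (.pt m y k)| ≤ 1 := by
          by_cases hy : y = x
          · subst hy
            rw [Finset.sum_eq_single j]
            · rw [e_self]; simp
            · intro b _ hb
              exact e_of_ne (by intro h; injection h with _ _ e3; exact hb e3)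
            · intro h
              exact absurd (Finset.mem_univ _) h
          · rw [Finset.sum_eq_zero]
            · simp
            · intro k _
              exact e_of_ne (by intro h; injection h with _ e2 _; exact hy e2)
        calc _ ≤ 1 / (m : ℝ) * 1 := by gcongr
          _ = _ := by ring
      · simp
  have hVe : ‖V (e n x j)‖ = 1 := by rw [hV, norm_e]
  have hle : |(V (e n x j)) (.cpl (.pt n x j))| ≤ 1 := by
    rw [← hVe]; exact abs_le_norm_L _ _
  have hpos : 0 < (V (e n x j)) (.cpl (.pt n x j)) := by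
    have := (abs_le.1 (hdiff (.cpl (.pt n x j)))).2
    rw [hT1] at this
    linarith
  by_contra hne
  have hlt : (V (e n x j)) (.cpl (.pt n x j)) < 1 :=
    lt_of_le_of_ne ((abs_le.1 hle).2) hne
  have : ‖V (e n x j)‖ ≤ max ((V (e n x j)) (.cpl (.pt n x j))) (1 / (n : ℝ) + ‖T n - V‖) := by
    refine norm_L_le (le_max_of_le_left hpos.le) fun ω => ?_
    by_cases hω : ω = .cpl (.pt n x j)
    · rw [hω, abs_of_pos hpos]
      exact le_max_left _ _
    · refine le_max_of_le_right ?_
      have h1 := hdiff ω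
      have h2 := hT2 ω hω
      have h3 : |(V (e n x j)) ω| ≤ |(T n (e n x j)) ω| + |(T n (e n x j)) ω - (V (e n x j)) ω| := by
        have := abs_sub_abs_le_abs_sub ((V (e n x j)) ω) ((T n (e n x j)) ω)
        rw [abs_sub_comm] at this
        linarith
      linarith
  rw [hVe] at this
  rcases le_max_iff.1 this with h | h <;> linarith

lemma V_of_zero (n : ℕ) (hn : 3 ≤ n) (V : E1 →L[ℝ] E2) (hV : ∀ F, ‖V F‖ = ‖F‖)
    (hd : ‖T n - V‖ < 1 / 2) (x : (grid n).Λ) (j : Fin n) (F : E1) (hF : F (.pt n x j) = 0) :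
    (V F) (.cpl (.pt n x j)) = 0 := by
  set t : ℝ := 1 / (‖F‖ + 1) with ht
  have htpos : 0 < t := by positivity
  have htF : t * ‖F‖ ≤ 1 := by
    rw [ht, div_mul_eq_mul_div, one_mul, div_le_one (by positivity)]
    linarith
  have key : ∀ s : ℝ, |s| = t → |1 + s * (V F) (.cpl (.pt n x j))| ≤ 1 := by
    intro s hs
    have h1 : ‖e n x j + s • F‖ ≤ 1 := by
      refine norm_L_le zero_le_one fun ω => ?_
      rw [add_L, smul_L]
      by_cases hω : ω = .pt n x j
      · rw [hω, e_self, hF]; simp
      · rw [e_of_ne hω, zero_add, abs_mul, hs]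
        calc t * |F ω| ≤ t * ‖F‖ := by gcongr; exact abs_le_norm_L F ω
          _ ≤ 1 := htF
    have h2 := abs_le_norm_L (V (e n x j + s • F)) (.cpl (.pt n x j))
    rw [hV, map_add, map_smul, add_L, smul_L, V_e n hn V hV hd] at h2
    exact h2.trans h1
  have h1 := (abs_le.1 (key t (abs_of_pos htpos))).2
  have h2 := (abs_le.1 (key (-t) (by rw [abs_neg, abs_of_pos htpos]))).2
  have h3 : t * (V F) (.cpl (.pt n x j)) = 0 := by linarith
  rcases mul_eq_zero.1 h3 with h | h
  · exact absurd h htpos.ne'
  · exact h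

lemma V_eq (n : ℕ) (hn : 3 ≤ n) (V : E1 →L[ℝ] E2) (hV : ∀ F, ‖V F‖ = ‖F‖)
    (hd : ‖T n - V‖ < 1 / 2) (x : (grid n).Λ) (j : Fin n) (F : E1) :
    (V F) (.cpl (.pt n x j)) = F (.pt n x j) := by
  have h := V_of_zero n hn V hV hd x j (F - F (.pt n x j) • e n x j)
    (by rw [sub_L, smul_L, e_self]; ring)
  rw [map_sub, map_smul, sub_L, smul_L, V_e n hn V hV hd] at h
  linarith

lemma gset_congr {n : ℕ} {i : Fin n} {x y : (grid n).Λ} (h : ((grid n).r i) x y) :
    g n i x = g n i y := by
  have : gset n i x = gset n i y := by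
    ext ω
    constructor
    · rintro ⟨z, j, hz, hj, rfl⟩
      exact ⟨z, j, ((grid n).r i).trans (((grid n).r i).symm h) hz, hj, rfl⟩
    · rintro ⟨z, j, hz, hj, rfl⟩
      exact ⟨z, j, ((grid n).r i).trans h hz, hj, rfl⟩
  refine ext_L fun ω => ?_
  rw [g_apply, g_apply, gfun, gfun, this]

/-- No isometric operator is at distance less than `1/2` from `T n` when `n ≥ 3`. -/
theorem not_close (n : ℕ) (hn : 3 ≤ n) (V : E1 →L[ℝ] E2) (hV : ∀ F, ‖V F‖ = ‖F‖) :
    1 / 2 ≤ ‖T n - V‖ := by
  by_contra hd
  push Not at hd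
  obtain ⟨x, hx⟩ := (grid n).free (fun i => {y | (V (g n i y)) (.lam n y) ≠ 1}) (by
    intro i x
    have h0 := eventually_of_measurable F2 (measurable_L (V (g n i x))) ⟨n, (i, x)⟩
    obtain ⟨c, hc⟩ := h0
    have hc1 : (Om2.cpl '' gset n i x \ {ω | (V (g n i x)) ω = c}).Countable :=
      (mem_cof.1 hc).2 _ (Or.inl rfl)
    have hc2 : (lset n i x \ {ω | (V (g n i x)) ω = c}).Countable :=
      (mem_cof.1 hc).2 _ (Or.inr rfl)
    have hVg : ∀ y j, ((grid n).r i) x y → j ≠ i → (V (g n i x)) (.cpl (.pt n y j)) = 1 := by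
      intro y j hy hj
      rw [V_eq n hn V hV hd, g_apply]
      have hmem : Om1.pt n y j ∈ gset n i x := ⟨y, j, hy, hj, rfl⟩
      exact indicator_of_mem hmem _
    by_cases hc0 : c = 1
    · subst hc0
      have := hc2.preimage (f := Om2.lam n) (fun a b h => by simpa using h)
      refine this.mono ?_
      rintro y ⟨hy1, hy2⟩
      refine ⟨⟨y, hy1, rfl⟩, fun h => hy2 ?_⟩
      rw [← gset_congr hy1]
      exact h
    · obtain ⟨j, hj⟩ : ∃ j : Fin n, j ≠ i := by
        by_contra hcon
        push Not at hcon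
        have h1 := hcon ⟨0, by omega⟩
        have h2 := hcon ⟨1, by omega⟩
        rw [← h1] at h2
        exact absurd (Fin.mk.inj h2) (by norm_num)
      have := hc1.preimage (f := fun y => Om2.cpl (.pt n y j)) (fun a b h => by simpa using h)
      refine this.mono ?_
      rintro y ⟨hy1, -⟩
      refine ⟨⟨_, ⟨y, j, hy1, hj, rfl⟩, rfl⟩, fun h => hc0 ?_⟩
      rw [← hVg y j hy1 hj]
      exact (h : _ = _).symm)
  have hx' : ∀ i, (V (g n i x)) (.lam n x) = 1 := by
    intro i
    by_contra h
    exact hx i h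
  have hsumL : ∀ (s : Finset (Fin n)) (ω : Om2),
      (∑ i ∈ s, V (g n i x) : E2) ω = ∑ i ∈ s, (V (g n i x)) ω := by
    intro s ω
    induction s using Finset.induction_on with
    | empty =>
      simp only [Finset.sum_empty]
      exact Measure.ae_count_iff.1 (Lp.coeFn_zero ℝ ∞ (Measure.count : Measure Om2)) ω
    | insert a s ha ih => rw [Finset.sum_insert ha, Finset.sum_insert ha, add_L, ih]
  have hsumL1 : ∀ (s : Finset (Fin n)) (ω : Om1),
      (∑ i ∈ s, g n i x : E1) ω = ∑ i ∈ s, (g n i x) ω := by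
    intro s ω
    induction s using Finset.induction_on with
    | empty =>
      simp only [Finset.sum_empty]
      exact Measure.ae_count_iff.1 (Lp.coeFn_zero ℝ ∞ (Measure.count : Measure Om1)) ω
    | insert a s ha ih => rw [Finset.sum_insert ha, Finset.sum_insert ha, add_L, ih]
  have h1 : (n : ℝ) ≤ ‖V (∑ i, g n i x)‖ := by
    have h := abs_le_norm_L (V (∑ i, g n i x)) (.lam n x)
    rw [map_sum, hsumL] at h
    rw [map_sum]
    simp only [hx', Finset.sum_const, Finset.card_univ, Fintype.card_fin, nsmul_eq_mul,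
      mul_one] at h
    rwa [abs_of_nonneg (by positivity)] at h
  have h2 : ‖∑ i, g n i x‖ ≤ (n : ℝ) - 1 := by
    have hn1 : (3 : ℝ) ≤ n := by exact_mod_cast hn
    refine norm_L_le (by linarith) fun ω => ?_
    rw [hsumL1]
    have hg0 : ∀ i, (g n i x) ω = 0 ∨ (g n i x) ω = 1 := by
      intro i
      rw [g_apply, gfun]
      by_cases h : ω ∈ gset n i x
      · right; exact indicator_of_mem h _
      · left; exact indicator_of_notMem h _
    have hnn : ∀ i, 0 ≤ (g n i x) ω := by
      intro i
      rcases hg0 i with h | h <;> rw [h]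
      exact zero_le_one
    have hle1 : ∀ i, (g n i x) ω ≤ 1 := by
      intro i
      rcases hg0 i with h | h <;> rw [h]
      exact zero_le_one
    rw [abs_of_nonneg (Finset.sum_nonneg fun i _ => hnn i)]
    -- some index gives zero
    have : ∃ k : Fin n, (g n k x) ω = 0 := by
      rcases ω with m | ⟨m, y, k⟩
      · refine ⟨⟨0, by omega⟩, ?_⟩
        rw [g_apply, gfun]
        refine indicator_of_notMem ?_ _
        rintro ⟨z, j, -, -, h⟩
        exact absurd h (by simp)
      · by_cases hmn : m = n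
        · subst hmn
          refine ⟨k, ?_⟩
          rw [g_apply, gfun]
          refine indicator_of_notMem ?_ _
          rintro ⟨z, j, -, hj, h⟩
          injection h with _ _ e3
          exact hj e3.symm
        · refine ⟨⟨0, by omega⟩, ?_⟩
          rw [g_apply, gfun]
          refine indicator_of_notMem ?_ _
          rintro ⟨z, j, -, -, h⟩
          injection h with e1 _ _
          exact hmn e1
    obtain ⟨k, hk⟩ := this
    rw [← Finset.add_sum_erase _ _ (Finset.mem_univ k), hk, zero_add]
    calc ∑ i ∈ Finset.univ.erase k, (g n i x) ω ≤ ∑ i ∈ Finset.univ.erase k, (1 : ℝ) :=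
          Finset.sum_le_sum fun i _ => hle1 i
      _ = (n : ℝ) - 1 := by
          simp only [Finset.sum_const, Finset.card_erase_of_mem (Finset.mem_univ k),
            Finset.card_univ, Fintype.card_fin, nsmul_eq_mul, mul_one]
          rw [Nat.cast_sub (by omega)]
          simp
  rw [hV] at h1
  linarith

end Pool.Agent.Helper80.LInf
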