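import Mathlib

/-! # Edge Menger for finite simple graphs -/

set_option autoImplicit false

namespace MengerH80

open Finset SimpleGraph

variable {V : Type*} [Fintype V] {G : SimpleGraph V} {u v : V}

open Classical in
/-- integral antisymmetric unit flows of value `m` from `u` to `v` -/
structure Fl (G : SimpleGraph V) (u v : V) (m : ℤ) (f : V → V → ℤ) : Prop where
  anti : ∀ x y, f x y = - f y x
  le : ∀ x y, f x y ≤ 1
  supp : ∀ x y, f x y ≠ 0 → G.Adj x y
  net : ∀ x, ∑ y, f x y = (if x = u then m else 0) - (if x = v then m else 0)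

open Classical in
/-- value through a cut -/
theorem Fl.cut {m : ℤ} {f : V → V → ℤ} (F : Fl G u v m f) (T : Finset V) (hu : u ∈ T)
    (hv : v ∉ T) : ∑ x ∈ T, ∑ y ∈ Tᶜ, f x y = m := by
  have h1 : ∑ x ∈ T, ∑ y, f x y = m := by
    rw [sum_congr rfl (fun x _ => F.net x), sum_sub_distrib, sum_ite_eq' T u, if_pos hu,
      sum_ite_eq' T v, if_neg hv, sub_zero]
  have h2 : ∑ x ∈ T, ∑ y ∈ T, f x y = 0 := by
    have h3 : ∑ x ∈ T, ∑ y ∈ T, f x y = - ∑ x ∈ T, ∑ y ∈ T, f x y := by
      conv_lhs => rw [sum_comm]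
      rw [← sum_neg_distrib]
      apply sum_congr rfl
      intro x _
      rw [← sum_neg_distrib]
      apply sum_congr rfl
      intro y _
      rw [F.anti y x]
    linarith
  have h4 : ∀ x, ∑ y, f x y = ∑ y ∈ T, f x y + ∑ y ∈ Tᶜ, f x y := by
    intro x
    rw [sum_add_sum_compl]
  rw [sum_congr rfl (fun x _ => h4 x), sum_add_distrib, h2, zero_add] at h1
  exact h1

open Classical in
/-- elementary flow along the pair `(a, b)` -/
noncomputable def el (a b x y : V) : ℤ :=
  (if x = a ∧ y = b then 1 else 0) - (if x = b ∧ y = a then 1 else 0)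

open Classical in
theorem el_anti (a b x y : V) : el a b x y = - el a b y x := by
  unfold el
  rw [neg_sub]
  congr 1
  · exact if_congr and_comm rfl rfl
  · exact if_congr and_comm rfl rfl

open Classical in
theorem el_net (a b x : V) : ∑ y, el a b x y
    = (if x = a then 1 else 0) - (if x = b then 1 else 0) := by
  unfold el
  rw [sum_sub_distrib]
  congr 1
  · by_cases hx : x = a
    · simp [hx]
    · simp [hx]
  · by_cases hx : x = b
    · simp [hx]
    · simp [hx]

/-- flow along a walk -/
noncomputable def wf : {a b : V} → G.Walk a b → V → V → ℤ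
  | _, _, .nil => fun _ _ => 0
  | a, _, .cons (v := c) _ p => fun x y => el a c x y + wf p x y

theorem wf_anti {a b : V} (p : G.Walk a b) : ∀ x y, wf p x y = - wf p y x := by
  induction p with
  | nil => intro x y; simp [wf]
  | cons h p ih =>
    intro x y
    simp only [wf]
    rw [ih x y, el_anti _ _ x y]
    ring

open Classical in
theorem wf_net {a b : V} (p : G.Walk a b) : ∀ x, ∑ y, wf p x y
    = (if x = a then 1 else 0) - (if x = b then 1 else 0) := by
  induction p with
  | nil => intro x; simp [wf]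
  | cons h p ih =>
    intro x
    simp only [wf]
    rw [sum_add_distrib, ih x, el_net]
    ring

theorem wf_zero {a b : V} (p : G.Walk a b) : ∀ x y, s(x, y) ∉ p.edges → wf p x y = 0 := by
  induction p with
  | nil => intro x y _; simp [wf]
  | @cons a c b h p ih =>
    intro x y hxy
    rw [Walk.edges_cons, List.mem_cons, not_or] at hxy
    simp only [wf]
    rw [ih x y hxy.2, add_zero]
    unfold el
    rw [if_neg, if_neg, sub_zero]
    · rintro ⟨rfl, rfl⟩
      exact hxy.1 Sym2.eq_swap
    · rintro ⟨rfl, rfl⟩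
      exact hxy.1 rfl

theorem wf_one {a b : V} (p : G.Walk a b) : p.edges.Nodup →
    ∀ d ∈ p.darts, wf p d.fst d.snd = 1 := by
  induction p with
  | nil => intro _ d hd; simp at hd
  | @cons a c b h p ih =>
    intro hn d hd
    rw [Walk.edges_cons, List.nodup_cons] at hn
    rw [Walk.darts_cons, List.mem_cons] at hd
    simp only [wf]
    rcases hd with rfl | hd
    · rw [wf_zero p _ _ hn.1, add_zero]
      unfold el
      rw [if_pos ⟨rfl, rfl⟩, if_neg, sub_zero]
      rintro ⟨h1, _⟩
      exact h.ne h1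
    · rw [ih hn.2 d hd]
      have he : s(d.fst, d.snd) ∈ p.edges := by
        rw [Walk.edges]
        exact List.mem_map.2 ⟨d, hd, rfl⟩
      unfold el
      rw [if_neg, if_neg, sub_zero, zero_add]
      · rintro ⟨h1, h2⟩
        rw [h1, h2, Sym2.eq_swap] at he
        exact hn.1 he
      · rintro ⟨h1, h2⟩
        rw [h1, h2] at he
        exact hn.1 he

theorem dart_of_edge {a b : V} (p : G.Walk a b) {x y : V} (h : s(x, y) ∈ p.edges) :
    (∃ d ∈ p.darts, d.fst = x ∧ d.snd = y) ∨ (∃ d ∈ p.darts, d.fst = y ∧ d.snd = x) := by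
  rw [Walk.edges, List.mem_map] at h
  obtain ⟨d, hd, he⟩ := h
  have he' : s(d.fst, d.snd) = s(x, y) := he
  rw [Sym2.eq_iff] at he'
  rcases he' with h1 | h1
  · exact Or.inl ⟨d, hd, h1⟩
  · exact Or.inr ⟨d, hd, h1⟩

theorem wf_supp {a b : V} (p : G.Walk a b) (x y : V) (h : wf p x y ≠ 0) : G.Adj x y := by
  have : s(x, y) ∈ p.edges := by
    by_contra hcon
    exact h (wf_zero p x y hcon)
  exact p.adj_of_mem_edges this

/-- a path all of whose darts satisfy `R` -/
theorem path_of_reach (R : V → V → Prop) (hR : ∀ x y, R x y → G.Adj x y) {a b : V}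
    (h : Relation.ReflTransGen R a b) :
    ∃ p : G.Walk a b, p.IsPath ∧ ∀ d ∈ p.darts, R d.fst d.snd := by
  classical
  have h1 : ∃ p : G.Walk a b, ∀ d ∈ p.darts, R d.fst d.snd := by
    induction h using Relation.ReflTransGen.head_induction_on with
    | refl => exact ⟨Walk.nil, by simp⟩
    | @head a c hac _ ih =>
      obtain ⟨p, hp⟩ := ih
      refine ⟨Walk.cons (hR _ _ hac) p, ?_⟩
      intro d hd
      rw [Walk.darts_cons, List.mem_cons] at hd
      rcases hd with rfl | hd
      · exact hac
      · exact hp d hd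
  obtain ⟨p, hp⟩ := h1
  exact ⟨p.bypass, p.bypass_isPath, fun d hd => hp d (p.darts_bypass_subset hd)⟩

/-- augmentation -/
theorem Fl.add {m : ℤ} {f : V → V → ℤ} (F : Fl G u v m f) (p : G.Walk u v) (hp : p.IsPath)
    (hd : ∀ d ∈ p.darts, f d.fst d.snd ≤ 0) : Fl G u v (m + 1) (fun x y => f x y + wf p x y) where
  anti := by
    intro x y
    rw [F.anti x y, wf_anti p x y]
    ring
  le := by
    intro x y
    by_cases hxy : s(x, y) ∈ p.edges
    · rcases dart_of_edge p hxy with ⟨d, hd1, rfl, rfl⟩ | ⟨d, hd1, rfl, rfl⟩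
      · have := hd d hd1
        rw [wf_one p hp.isTrail.edges_nodup d hd1]
        linarith
      · have h1 := wf_one p hp.isTrail.edges_nodup d hd1
        have h2 := F.le d.snd d.fst
        have h3 := wf_anti p d.snd d.fst
        linarith
    · rw [wf_zero p x y hxy, add_zero]
      exact F.le x y
  supp := by
    intro x y hxy
    by_cases h : f x y = 0
    · rw [h, zero_add] at hxy
      exact wf_supp p x y hxy
    · exact F.supp x y h
  net := by
    classical
    intro x
    rw [sum_add_distrib, F.net x, wf_net p x]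
    split_ifs <;> ring

/-- removal of a path -/
theorem Fl.sub {m : ℤ} {f : V → V → ℤ} (F : Fl G u v m f) (p : G.Walk u v) (hp : p.IsPath)
    (hd : ∀ d ∈ p.darts, f d.fst d.snd = 1) :
    Fl G u v (m - 1) (fun x y => f x y - wf p x y) ∧
      ∀ x y, s(x, y) ∈ p.edges → f x y - wf p x y = 0 := by
  have key : ∀ x y, s(x, y) ∈ p.edges → f x y - wf p x y = 0 := by
    intro x y hxy
    rcases dart_of_edge p hxy with ⟨d, hd1, rfl, rfl⟩ | ⟨d, hd1, rfl, rfl⟩
    · rw [hd d hd1, wf_one p hp.isTrail.edges_nodup d hd1, sub_self]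
    · have h1 := wf_one p hp.isTrail.edges_nodup d hd1
      have h2 := hd d hd1
      rw [F.anti, wf_anti, h1, h2]
      norm_num
  refine ⟨⟨?_, ?_, ?_, ?_⟩, key⟩
  · intro x y
    rw [F.anti x y, wf_anti p x y]
    ring
  · intro x y
    by_cases hxy : s(x, y) ∈ p.edges
    · rw [key x y hxy]
      norm_num
    · rw [wf_zero p x y hxy, sub_zero]
      exact F.le x y
  · intro x y hxy
    by_cases h : f x y = 0
    · rw [h, zero_sub, neg_ne_zero] at hxy
      exact wf_supp p x y hxy
    · exact F.supp x y h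
  · classical
    intro x
    rw [sum_sub_distrib, F.net x, wf_net p x]
    split_ifs <;> ring

/-- the crossing edges of `T` -/
def cutSet (G : SimpleGraph V) (T : Set V) : Set (Sym2 V) :=
  {e ∈ G.edgeSet | ∃ x ∈ T, ∃ y ∉ T, e = s(x, y)}

open Classical in
theorem cut_card (T : Finset V) :
    (cutSet G (T : Set V)).ncard = ((T ×ˢ Tᶜ).filter (fun q => G.Adj q.1 q.2)).card := by
  have h1 : cutSet G (T : Set V)
      = (((T ×ˢ Tᶜ).filter (fun q => G.Adj q.1 q.2)).image (fun q => s(q.1, q.2)) :
        Finset (Sym2 V)) := by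
    ext e
    simp only [cutSet, Set.mem_setOf_eq, coe_image, coe_filter, mem_product, mem_compl,
      Set.mem_image, Prod.exists, mem_coe]
    constructor
    · rintro ⟨he, x, hx, y, hy, rfl⟩
      exact ⟨x, y, ⟨⟨hx, hy⟩, he⟩, rfl⟩
    · rintro ⟨x, y, ⟨⟨hx, hy⟩, he⟩, rfl⟩
      exact ⟨he, x, hx, y, hy, rfl⟩
  rw [h1, Set.ncard_coe_finset, card_image_of_injOn]
  rintro ⟨x, y⟩ hq ⟨x', y'⟩ hq' heq
  simp only [coe_filter, mem_product, mem_compl, Set.mem_setOf_eq] at hq hq'
  simp only [Sym2.eq_iff] at heq
  rcases heq with ⟨rfl, rfl⟩ | ⟨rfl, rfl⟩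
  · rfl
  · exact absurd hq.1.1 hq'.1.2

/-- an augmenting path exists when all cuts are larger than the value -/
theorem exists_aug {m : ℤ} {f : V → V → ℤ} (F : Fl G u v m f)
    (hcut : ∀ T : Set V, u ∈ T → v ∉ T → m < ((cutSet G T).ncard : ℤ)) :
    ∃ p : G.Walk u v, p.IsPath ∧ ∀ d ∈ p.darts, f d.fst d.snd ≤ 0 := by
  classical
  set R : V → V → Prop := fun x y => G.Adj x y ∧ f x y ≤ 0 with hRdef
  by_cases hv : Relation.ReflTransGen R u v
  · obtain ⟨p, hp, hd⟩ := path_of_reach R (fun x y h => h.1) hv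
    exact ⟨p, hp, fun d hd1 => (hd d hd1).2⟩
  · exfalso
    set T : Finset V := univ.filter (fun x => Relation.ReflTransGen R u x) with hT
    have huT : u ∈ T := by
      rw [hT, mem_filter]
      exact ⟨mem_univ _, Relation.ReflTransGen.refl⟩
    have hvT : v ∉ T := by
      rw [hT, mem_filter]
      exact fun h => hv h.2
    have h1 := F.cut T huT hvT
    have h2 := hcut (T : Set V) (by exact_mod_cast huT) (by exact_mod_cast hvT)
    rw [cut_card] at h2
    have h3 : ∀ x ∈ T, ∀ y ∈ Tᶜ, f x y = if G.Adj x y then 1 else 0 := by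
      intro x hx y hy
      rw [mem_compl, hT, mem_filter, not_and] at hy
      have hy' := hy (mem_univ _)
      rw [hT, mem_filter] at hx
      by_cases ha : G.Adj x y
      · rw [if_pos ha]
        have h4 : ¬ f x y ≤ 0 := fun h5 => hy' (hx.2.tail ⟨ha, h5⟩)
        have h5 := F.le x y
        omega
      · rw [if_neg ha]
        by_contra h5
        exact ha (F.supp x y h5)
    rw [sum_congr rfl (fun x hx => sum_congr rfl (fun y hy => h3 x hx y hy)), ← sum_product',
      sum_boole] at h1
    rw [← h1] at h2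
    exact lt_irrefl _ h2

/-- large flows -/
theorem exists_flow (m : ℕ) (hcut : ∀ T : Set V, u ∈ T → v ∉ T → m ≤ (cutSet G T).ncard) :
    ∃ f, Fl G u v (m : ℤ) f := by
  induction m with
  | zero =>
    refine ⟨fun _ _ => 0, ?_, ?_, ?_, ?_⟩
    · intro x y; simp
    · intro x y; simp
    · intro x y h; simp at h
    · intro x; simp
  | succ m ih =>
    obtain ⟨f, hf⟩ := ih (fun T h1 h2 => (Nat.le_succ m).trans (hcut T h1 h2))
    obtain ⟨p, hp, hd⟩ := exists_aug hf (fun T h1 h2 => by
      have := hcut T h1 h2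
      omega)
    exact ⟨_, by
      have := hf.add p hp hd
      push_cast
      exact this⟩

/-- flow decomposition -/
theorem decomp (huv : u ≠ v) (m : ℕ) : ∀ f : V → V → ℤ, Fl G u v (m : ℤ) f →
    ∃ p : Fin m → G.Walk u v, (∀ i, (p i).IsPath) ∧
      Pairwise (fun i j => List.Disjoint (p i).edges (p j).edges) ∧
      ∀ i x y, s(x, y) ∈ (p i).edges → f x y ≠ 0 := by
  classical
  induction m with
  | zero =>
    intro f _
    exact ⟨fun i => i.elim0, fun i => i.elim0, fun i => i.elim0, fun i => i.elim0⟩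
  | succ m ih =>
    intro f F
    have hreach : Relation.ReflTransGen (fun x y => f x y = 1) u v := by
      by_contra hv
      set T : Finset V := univ.filter
        (fun x => Relation.ReflTransGen (fun x y => f x y = 1) u x) with hT
      have huT : u ∈ T := by
        rw [hT, mem_filter]
        exact ⟨mem_univ _, Relation.ReflTransGen.refl⟩
      have hvT : v ∉ T := by
        rw [hT, mem_filter]
        exact fun h => hv h.2
      have h1 := F.cut T huT hvT
      have h3 : ∑ x ∈ T, ∑ y ∈ Tᶜ, f x y ≤ 0 := by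
        apply sum_nonpos
        intro x hx
        apply sum_nonpos
        intro y hy
        rw [mem_compl, hT, mem_filter, not_and] at hy
        have hy' := hy (mem_univ _)
        rw [hT, mem_filter] at hx
        have h4 : ¬ f x y = 1 := fun h5 => hy' (hx.2.tail h5)
        have h5 := F.le x y
        omega
      rw [h1] at h3
      push_cast at h3
      have : (0 : ℤ) ≤ m := Nat.cast_nonneg m
      omega
    obtain ⟨p0, hp0, hd0⟩ := path_of_reach (G := G) (fun x y => f x y = 1)
      (fun x y h => F.supp x y (by rw [h]; norm_num)) hreach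
    obtain ⟨F', hz⟩ := F.sub p0 hp0 hd0
    have hm : ((m + 1 : ℕ) : ℤ) - 1 = m := by push_cast; ring
    rw [hm] at F'
    obtain ⟨p, hp1, hp2, hp3⟩ := ih _ F'
    have hdis : ∀ i, List.Disjoint p0.edges (p i).edges := by
      intro i e he0 he1
      induction e using Sym2.ind with
      | _ x y => exact hp3 i x y he1 (hz x y he0)
    refine ⟨Fin.cons p0 p, ?_, ?_, ?_⟩
    · intro i
      refine Fin.cases ?_ ?_ i
      · exact hp0
      · intro j
        exact hp1 j
    · intro i j
      refine Fin.cases ?_ ?_ i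
      · refine Fin.cases ?_ ?_ j
        · intro h
          exact absurd rfl h
        · intro j' _
          exact hdis j'
      · intro i'
        refine Fin.cases ?_ ?_ j
        · intro _
          exact (hdis i').symm
        · intro j' h
          exact hp2 (fun h' => h (congrArg Fin.succ h'))
    · intro i x y
      refine Fin.cases ?_ ?_ i
      · intro h hf0
        have h1 := hz x y h
        rw [hf0, zero_sub, neg_eq_zero] at h1
        rcases dart_of_edge p0 h with ⟨d, hd1, rfl, rfl⟩ | ⟨d, hd1, rfl, rfl⟩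
        · rw [wf_one p0 hp0.isTrail.edges_nodup d hd1] at h1
          exact one_ne_zero h1
        · rw [wf_anti, wf_one p0 hp0.isTrail.edges_nodup d hd1] at h1
          norm_num at h1
      · intro i' h hf0
        apply hp3 i' x y h
        have : wf p0 x y = 0 := by
          apply wf_zero
          intro h2
          exact hdis i' h2 h
        rw [hf0, this, sub_zero]

/-- edge Menger -/
theorem menger_edge (G : SimpleGraph V) (k : ℕ) {u v : V} (huv : u ≠ v)
    (h : ¬ ∃ p : Fin (k + 1) → G.Walk u v, (∀ i, (p i).IsPath) ∧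
      Pairwise (fun i j => List.Disjoint (p i).edges (p j).edges)) :
    ∃ T : Set V, u ∈ T ∧ v ∉ T ∧
      ({e ∈ G.edgeSet | ∃ x ∈ T, ∃ y ∉ T, e = s(x, y)} : Set (Sym2 V)).ncard ≤ k := by
  by_contra hcon
  push Not at hcon
  obtain ⟨f, F⟩ := exists_flow (G := G) (u := u) (v := v) (k + 1)
    (fun T h1 h2 => Nat.succ_le_of_lt (hcon T h1 h2))
  obtain ⟨p, h1, h2, _⟩ := decomp huv (k + 1) f F
  exact h ⟨p, h1, h2⟩

end MengerH80
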